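import Pool.Agent.H424.TW.Sp

/-! Multiplication by band-limited functions preserves the spectral gap. -/

open MeasureTheory Filter Topology Real
open scoped ContDiff Convolution

namespace Pool.Agent.H424.TW

open Pool.Agent.Y744

variable {κ κ' a B : ℝ} {K Dd g : ℝ → ℝ}

lemma annih_gen (hκ : 0 < κ) (hκ' : κ < κ') (hg : Measurable g)
    (hgd : ∃ C2, 0 ≤ C2 ∧ ∀ h, |g h| ≤ C2 / (1 + h ^ 2) ^ 2)
    (hrep : ∀ K1, TK κ' K1 → (∀ x, |x| ≤ κ → K1 x = 1) → ∀ y,
      g y = ∫ t, ct K1 t * g (y - t)) (hm : Measurable Dd)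
    (hodd : ∀ x, Dd (-x) = -Dd x) (hB : ∀ x, |Dd x| ≤ B * (1 + x ^ 2))
    (ha : ∀ K1, TK κ' K1 → ∀ h, 0 < h → ∫ y, (Dd (y + h) - Dd (y - h)) * ct K1 y = 0) :
    ∫ y, Dd y * g y = 0 := by
  obtain ⟨K1, hK1, h1⟩ := exists_one hκ hκ'
  have hW := W_zero hK1 hm hodd hB (ha K1 hK1)
  obtain ⟨C1, hC1, hd1⟩ := hK1.decay 2
  obtain ⟨C2, hC2, hd2⟩ := hgd
  have hB0 : 0 ≤ B := by
    have := (abs_nonneg _).trans (hB 0)
    simpa using this
  have e1 : ∀ y, Dd y * g y = ∫ h, Dd y * (ct K1 (y - h) * g h) := by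
    intro y
    rw [integral_const_mul]
    have h2 := integral_sub_left_eq_self (fun t => ct K1 t * g (y - t)) volume y
    have h3 : ∫ t, ct K1 (y - t) * g (y - (y - t)) = ∫ h, ct K1 (y - h) * g h := by
      refine integral_congr_ae (Eventually.of_forall fun t => ?_)
      show ct K1 (y - t) * g (y - (y - t)) = ct K1 (y - t) * g t
      rw [sub_sub_cancel]
    have h4 : ∫ t, ct K1 (y - t) * g (y - (y - t)) = ∫ t, ct K1 t * g (y - t) := h2
    rw [← h3, h4, ← hrep K1 hK1 h1 y]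
  simp_rw [e1]
  have hI : Integrable (fun p : ℝ × ℝ => Dd p.1 * (ct K1 (p.1 - p.2) * g p.2))
      (volume.prod volume) := by
    have hc := Integrable.convolution_integrand (ContinuousLinearMap.mul ℝ ℝ)
      (μ := (volume : Measure ℝ)) (ν := (volume : Measure ℝ)) integrable_inv_one_add_sq
      integrable_inv_one_add_sq
    refine (hc.const_mul (2 * B * C1 * C2)).mono' ?_ (Eventually.of_forall fun p => ?_)
    · refine Measurable.aestronglyMeasurable ?_
      refine (hm.comp measurable_fst).mul ?_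
      refine (hK1.ct_cont.measurable.comp (by fun_prop)).mul ?_
      exact hg.comp measurable_snd
    · obtain ⟨y, h⟩ := p
      show ‖Dd y * (ct K1 (y - h) * g h)‖ ≤
        2 * B * C1 * C2 * ((1 + h ^ 2)⁻¹ * (1 + (y - h) ^ 2)⁻¹)
      rw [Real.norm_eq_abs, abs_mul, abs_mul]
      have p1 : 0 < 1 + (y - h) ^ 2 := by positivity
      have p2 : 0 < 1 + h ^ 2 := by positivity
      have b0 : 1 + y ^ 2 ≤ 2 * (1 + (y - h) ^ 2) * (1 + h ^ 2) := by
        nlinarith [sq_nonneg (y - h - h), sq_nonneg ((y - h) * h), sq_nonneg (y - h),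
          sq_nonneg h]
      have b1 : |Dd y| ≤ B * (2 * (1 + (y - h) ^ 2) * (1 + h ^ 2)) :=
        (hB y).trans (mul_le_mul_of_nonneg_left b0 hB0)
      have b2 := hd1 (y - h)
      have b3 := hd2 h
      calc |Dd y| * (|ct K1 (y - h)| * |g h|) ≤
            (B * (2 * (1 + (y - h) ^ 2) * (1 + h ^ 2))) *
              ((C1 / (1 + (y - h) ^ 2) ^ 2) * (C2 / (1 + h ^ 2) ^ 2)) := by
            refine mul_le_mul b1 (mul_le_mul b2 b3 (by positivity) (by positivity))
              (by positivity) (by positivity)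
        _ = 2 * B * C1 * C2 * ((1 + h ^ 2)⁻¹ * (1 + (y - h) ^ 2)⁻¹) := by
            field_simp
  rw [integral_integral_swap hI]
  have e2 : ∀ h, ∫ y, Dd y * (ct K1 (y - h) * g h) = 0 := by
    intro h
    have : ∫ y, Dd y * (ct K1 (y - h) * g h) =
        ∫ y, (Dd y * ct K1 (y - h)) * g h := by
      refine integral_congr_ae (Eventually.of_forall fun y => ?_)
      show Dd y * (ct K1 (y - h) * g h) = (Dd y * ct K1 (y - h)) * g h
      ring
    rw [this, integral_mul_const, hW h, zero_mul]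
  simp_rw [e2]
  simp

lemma annih_x (hκ : 0 < κ) (hκ' : κ < κ') (hK : TK κ K) (hm : Measurable Dd)
    (hodd : ∀ x, Dd (-x) = -Dd x) (hB : ∀ x, |Dd x| ≤ B * (1 + x ^ 2))
    (ha : ∀ K1, TK κ' K1 → ∀ h, 0 < h → ∫ y, (Dd (y + h) - Dd (y - h)) * ct K1 y = 0) :
    ∫ y, (y * Dd y) * ct K y = 0 := by
  have h := annih_gen (g := fun y => y * ct K y) hκ hκ'
    (measurable_id.mul hK.ct_cont.measurable) (by
      obtain ⟨C2, hC2, hd2⟩ := hK.decay 3
      refine ⟨C2, hC2, fun h => ?_⟩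
      have p2 : 0 < 1 + h ^ 2 := by positivity
      have b4 : |h| ≤ 1 + h ^ 2 := by
        rw [← sq_abs h]
        nlinarith [sq_nonneg (|h| - 1), abs_nonneg h]
      show |h * ct K h| ≤ _
      rw [abs_mul]
      calc |h| * |ct K h| ≤ (1 + h ^ 2) * (C2 / (1 + h ^ 2) ^ 3) :=
            mul_le_mul b4 (hd2 h) (abs_nonneg _) p2.le
        _ = C2 / (1 + h ^ 2) ^ 2 := by field_simp)
    (fun K1 hK1 h1 y => repro hK hK1 h1 y) hm hodd hB ha
  rw [← h]
  refine integral_congr_ae (Eventually.of_forall fun y => ?_)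
  show (y * Dd y) * ct K y = Dd y * (y * ct K y)
  ring

lemma annih_sin (hκ : 0 < κ) (hκ' : κ + |a| < κ') (hK : TK κ K) (hm : Measurable Dd)
    (hodd : ∀ x, Dd (-x) = -Dd x) (hB : ∀ x, |Dd x| ≤ B * (1 + x ^ 2))
    (ha : ∀ K1, TK κ' K1 → ∀ h, 0 < h → ∫ y, (Dd (y + h) - Dd (y - h)) * ct K1 y = 0) :
    ∫ y, (Real.sin (2 * π * a * y) * Dd y) * ct K y = 0 := by
  have h := annih_gen (g := fun y => Real.sin (2 * π * a * y) * ct K y)
    (add_pos_of_pos_of_nonneg hκ (abs_nonneg a)) hκ'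
    ((by fun_prop : Measurable fun y : ℝ => Real.sin (2 * π * a * y)).mul hK.ct_cont.measurable) (by
      obtain ⟨C2, hC2, hd2⟩ := hK.decay 2
      refine ⟨C2, hC2, fun h => ?_⟩
      show |Real.sin (2 * π * a * h) * ct K h| ≤ _
      rw [abs_mul]
      calc |Real.sin (2 * π * a * h)| * |ct K h| ≤ 1 * (C2 / (1 + h ^ 2) ^ 2) :=
            mul_le_mul (Real.abs_sin_le_one _) (hd2 h) (abs_nonneg _) zero_le_one
        _ = C2 / (1 + h ^ 2) ^ 2 := one_mul _)
    (fun K1 hK1 h1 y => repro_sin hK hK1 h1 y) hm hodd hB ha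
  rw [← h]
  refine integral_congr_ae (Eventually.of_forall fun y => ?_)
  show (Real.sin (2 * π * a * y) * Dd y) * ct K y = Dd y * (Real.sin (2 * π * a * y) * ct K y)
  ring

lemma annih_cos (hκ : 0 < κ) (hκ' : κ + |a| < κ') (hK : TK κ K) (hm : Measurable Dd)
    (hodd : ∀ x, Dd (-x) = -Dd x) (hB : ∀ x, |Dd x| ≤ B * (1 + x ^ 2))
    (ha : ∀ K1, TK κ' K1 → ∀ h, 0 < h → ∫ y, (Dd (y + h) - Dd (y - h)) * ct K1 y = 0) :
    ∫ y, (y * Real.cos (2 * π * a * y) * Dd y) * ct K y = 0 := by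
  have h := annih_x (add_pos_of_pos_of_nonneg hκ (abs_nonneg a)) hκ' (hK.modul a) hm hodd hB ha
  rw [← h]
  refine integral_congr_ae (Eventually.of_forall fun y => ?_)
  show (y * Real.cos (2 * π * a * y) * Dd y) * ct K y = (y * Dd y) * ct _ y
  rw [hK.ct_modul]
  ring

end Pool.Agent.H424.TW
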