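import Pool.Agent.Y744.PCR.HighPass2

/-! The high-pass theorem for functions of growth `(1 + x²)²`. -/

open MeasureTheory Filter Topology Real ProbabilityTheory
open scoped ContDiff ENNReal

namespace Pool.Agent.H424.TW

open Pool.Agent.Y744

section

variable {κ : ℝ} {H : ℝ → ℝ} {B C c : ℝ}

lemma int_mul_ct (hm : Measurable H) (hB : ∀ x, |H x| ≤ B * (1 + x ^ 2) ^ 2) {K : ℝ → ℝ}
    (hK : TK κ K) : Integrable fun x => H x * ct K x := by
  obtain ⟨D, hD0, hD⟩ := hK.decay 3
  have hB0 : 0 ≤ B := by
    have := (abs_nonneg _).trans (hB 0)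
    simpa using this
  refine (integrable_inv_one_add_sq.const_mul (B * D)).mono'
    (hm.mul hK.ct_cont.measurable).aestronglyMeasurable (Eventually.of_forall fun x => ?_)
  rw [Real.norm_eq_abs, abs_mul]
  have h1 : 0 < 1 + x ^ 2 := by positivity
  calc |H x| * |ct K x| ≤ (B * (1 + x ^ 2) ^ 2) * (D / (1 + x ^ 2) ^ 3) := by
        gcongr
        · exact hB x
        · exact hD x
    _ = B * D * (1 + x ^ 2)⁻¹ := by field_simp

/-- the even moments of the positive part -/
lemma moment (hκ : 0 < κ) (hm : Measurable H) (hB : ∀ x, |H x| ≤ B * (1 + x ^ 2) ^ 2) (hC : 0 ≤ C)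
    (hl : ∀ᵐ x, -(C * Real.exp (-(c * |x|))) ≤ H x)
    (hz : ∀ K, TK κ K → ∫ x, H x * ct K x = 0) (k : ℕ) :
    ∫⁻ x, ENNReal.ofReal (max (H x) 0 * x ^ (2 * k)) ≤
      ∫⁻ x, ENNReal.ofReal (C * Real.exp (-(c * |x|)) * x ^ (2 * k)) := by
  obtain ⟨K, hK, hpos, h0, hle⟩ := exists_pos hκ
  set M := ct K 0 with hM
  have hmp : Measurable fun x => max (H x) 0 := hm.max measurable_const
  have hmn : Measurable fun x => max (-H x) 0 := hm.neg.max measurable_const
  -- for each `ε`
  have main : ∀ ε : ℝ, 0 < ε → ε ≤ 1 →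
      ∫⁻ x, ENNReal.ofReal (max (H x) 0 * x ^ (2 * k) * ct K (ε * x)) ≤
      ∫⁻ x, ENNReal.ofReal (C * Real.exp (-(c * |x|)) * x ^ (2 * k) * M) := by
    intro ε hε hε1
    obtain ⟨K', hK', e'⟩ := (hK.dil hε).x_pow_mul k
    have hK'' : TK κ K' := hK'.mono (by nlinarith)
    have e : ∀ x, ct K' x = x ^ (2 * k) * ct K (ε * x) := fun x => by
      rw [← e', TK.ct_dil K hε]
    have hnn : ∀ x, 0 ≤ ct K' x := fun x => by
      rw [e, pow_mul]
      have := hpos (ε * x)
      positivity
    have h1 := hz K' hK''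
    have hi := int_mul_ct hm hB hK''
    have hBp : ∀ x, |max (H x) 0| ≤ B * (1 + x ^ 2) ^ 2 := fun x => by
      rw [abs_of_nonneg (le_max_right _ _)]
      have := hB x
      exact max_le ((le_abs_self _).trans this) ((abs_nonneg _).trans this)
    have hBn : ∀ x, |max (-H x) 0| ≤ B * (1 + x ^ 2) ^ 2 := fun x => by
      rw [abs_of_nonneg (le_max_right _ _)]
      have := hB x
      exact max_le ((neg_le_abs _).trans this) ((abs_nonneg _).trans this)
    have hip := int_mul_ct hmp hBp hK''
    have hin := int_mul_ct hmn hBn hK''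
    have h2 : ∫ x, max (H x) 0 * ct K' x = ∫ x, max (-H x) 0 * ct K' x := by
      have h3 : ∫ x, H x * ct K' x = (∫ x, max (H x) 0 * ct K' x) -
          ∫ x, max (-H x) 0 * ct K' x := by
        rw [← integral_sub hip hin]
        refine integral_congr_ae (Eventually.of_forall fun x => ?_)
        show H x * ct K' x = max (H x) 0 * ct K' x - max (-H x) 0 * ct K' x
        have : H x = max (H x) 0 - max (-H x) 0 := by
          rcases le_total (H x) 0 with h | h
          · rw [max_eq_right h, max_eq_left (by linarith)]; ring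
          · rw [max_eq_left h, max_eq_right (by linarith)]; ring
        nth_rewrite 1 [this]
        ring
      linarith
    have h4 : ∫⁻ x, ENNReal.ofReal (max (H x) 0 * ct K' x) =
        ∫⁻ x, ENNReal.ofReal (max (-H x) 0 * ct K' x) := by
      rw [← ofReal_integral_eq_lintegral_ofReal hip (Eventually.of_forall fun x =>
        mul_nonneg (le_max_right _ _) (hnn x)), h2,
        ofReal_integral_eq_lintegral_ofReal hin (Eventually.of_forall fun x =>
        mul_nonneg (le_max_right _ _) (hnn x))]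
    have h5 : ∫⁻ x, ENNReal.ofReal (max (H x) 0 * x ^ (2 * k) * ct K (ε * x)) =
        ∫⁻ x, ENNReal.ofReal (max (H x) 0 * ct K' x) := by
      refine lintegral_congr fun x => ?_
      rw [e, mul_assoc]
    rw [h5, h4]
    refine lintegral_mono_ae ?_
    filter_upwards [hl] with x hx
    refine ENNReal.ofReal_le_ofReal ?_
    rw [e, ← mul_assoc]
    have h6 : max (-H x) 0 ≤ C * Real.exp (-(c * |x|)) :=
      max_le (by linarith) (by positivity)
    have h7 : 0 ≤ x ^ (2 * k) := by rw [pow_mul]; positivity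
    have h8 : 0 ≤ C * Real.exp (-(c * |x|)) * x ^ (2 * k) := by positivity
    exact mul_le_mul (mul_le_mul_of_nonneg_right h6 h7) (hle _) (hpos _) h8
  -- Fatou
  have hMpos : ENNReal.ofReal M ≠ 0 := by simpa using h0
  have key : ∫⁻ x, ENNReal.ofReal (max (H x) 0 * x ^ (2 * k) * M) ≤
      ∫⁻ x, ENNReal.ofReal (C * Real.exp (-(c * |x|)) * x ^ (2 * k) * M) := by
    set f : ℕ → ℝ → ℝ≥0∞ := fun n x =>
      ENNReal.ofReal (max (H x) 0 * x ^ (2 * k) * ct K (1 / ((n : ℝ) + 1) * x)) with hf
    have hfm : ∀ n, Measurable (f n) := fun n => by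
      refine ENNReal.measurable_ofReal.comp ?_
      exact (hmp.mul (by fun_prop)).mul (hK.ct_cont.measurable.comp (by fun_prop))
    have hlim : ∀ x, liminf (fun n => f n x) atTop =
        ENNReal.ofReal (max (H x) 0 * x ^ (2 * k) * M) := by
      intro x
      refine Tendsto.liminf_eq ?_
      refine ENNReal.tendsto_ofReal ?_
      refine tendsto_const_nhds.mul ?_
      have h1 : Tendsto (fun n : ℕ => 1 / ((n : ℝ) + 1) * x) atTop (𝓝 (0 * x)) :=
        tendsto_one_div_add_atTop_nhds_zero_nat.mul_const x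
      rw [zero_mul] at h1
      exact (hK.ct_cont.tendsto 0).comp h1
    calc ∫⁻ x, ENNReal.ofReal (max (H x) 0 * x ^ (2 * k) * M) =
          ∫⁻ x, liminf (fun n => f n x) atTop := lintegral_congr fun x => (hlim x).symm
      _ ≤ liminf (fun n => ∫⁻ x, f n x) atTop := lintegral_liminf_le hfm
      _ ≤ _ := by
          refine liminf_le_of_le (by isBoundedDefault) fun b hb => ?_
          obtain ⟨n, hn⟩ := hb.exists
          refine hn.trans (main _ (by positivity) ?_)
          rw [div_le_one (by positivity)]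
          have : (0 : ℝ) ≤ n := Nat.cast_nonneg n
          linarith
  have hr : ∀ (u : ℝ → ℝ), Measurable u → (∀ x, 0 ≤ u x) →
      ∫⁻ x, ENNReal.ofReal (u x * M) = (∫⁻ x, ENNReal.ofReal (u x)) * ENNReal.ofReal M := by
    intro u hu hu0
    have h1 := lintegral_mul_const (μ := (volume : Measure ℝ)) (ENNReal.ofReal M)
      (f := fun x => ENNReal.ofReal (u x)) hu.ennreal_ofReal
    rw [← h1]
    exact lintegral_congr fun x => ENNReal.ofReal_mul (hu0 x)
  have hx2 : ∀ x : ℝ, 0 ≤ x ^ (2 * k) := fun x => by rw [pow_mul]; positivity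
  rw [hr (fun x => max (H x) 0 * x ^ (2 * k)) (hmp.mul (by fun_prop))
      (fun x => mul_nonneg (le_max_right _ _) (hx2 x)),
    hr (fun x => C * Real.exp (-(c * |x|)) * x ^ (2 * k)) (by fun_prop)
      (fun x => mul_nonneg (by positivity) (hx2 x))] at key
  exact (ENNReal.mul_le_mul_iff_left hMpos ENNReal.ofReal_ne_top).1 key

/-- exponential moments -/
lemma exp_moment (hκ : 0 < κ) (hm : Measurable H) (hB : ∀ x, |H x| ≤ B * (1 + x ^ 2) ^ 2)
    (hC : 0 ≤ C) (hc : 0 < c) (hl : ∀ᵐ x, -(C * Real.exp (-(c * |x|))) ≤ H x)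
    (hz : ∀ K, TK κ K → ∫ x, H x * ct K x = 0) :
    Integrable fun x => |H x| * Real.exp (c / 2 * |x|) := by
  have hmp : Measurable fun x => max (H x) 0 := hm.max measurable_const
  have h1 := cosh_series (fun x => max (H x) 0) hmp (fun x => le_max_right _ _) (c / 2)
  have h2 := cosh_series (fun x => C * Real.exp (-(c * |x|))) (by fun_prop)
    (fun x => by positivity) (c / 2)
  have hcosh : ∀ x : ℝ, Real.cosh (c / 2 * x) ≤ Real.exp (c / 2 * |x|) := by
    intro x
    rw [Real.cosh_eq]
    have a1 : Real.exp (c / 2 * x) ≤ Real.exp (c / 2 * |x|) :=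
      Real.exp_le_exp.2 (mul_le_mul_of_nonneg_left (le_abs_self x) (by linarith))
    have a2 : Real.exp (-(c / 2 * x)) ≤ Real.exp (c / 2 * |x|) :=
      Real.exp_le_exp.2 (by
        rw [← mul_neg]
        exact mul_le_mul_of_nonneg_left (neg_le_abs x) (by linarith))
    linarith
  have hcosh2 : ∀ x : ℝ, Real.exp (c / 2 * |x|) ≤ 2 * Real.cosh (c / 2 * x) := by
    intro x
    rw [Real.cosh_eq]
    have b1 := Real.exp_pos (c / 2 * x)
    have b2 := Real.exp_pos (-(c / 2 * x))
    rcases abs_cases x with ⟨h, _⟩ | ⟨h, _⟩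
    · rw [h]; linarith
    · rw [h, mul_neg]; linarith
  have h3 : ∫⁻ x, ENNReal.ofReal (C * Real.exp (-(c * |x|)) * Real.cosh (c / 2 * x)) < ⊤ := by
    have hi : Integrable fun x : ℝ => C * Real.exp (-(c / 2 * |x|)) :=
      (integrable_exp_neg_abs (by linarith)).const_mul C
    refine lt_of_le_of_lt (lintegral_mono fun x => ENNReal.ofReal_le_ofReal ?_)
      hi.lintegral_lt_top
    have e : Real.exp (-(c / 2 * |x|)) = Real.exp (-(c * |x|)) * Real.exp (c / 2 * |x|) := by
      rw [← Real.exp_add]; ring_nf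
    show C * Real.exp (-(c * |x|)) * Real.cosh (c / 2 * x) ≤ C * Real.exp (-(c / 2 * |x|))
    rw [e, mul_assoc]
    exact mul_le_mul_of_nonneg_left (mul_le_mul_of_nonneg_left (hcosh x) (Real.exp_pos _).le) hC
  have h4 : ∫⁻ x, ENNReal.ofReal (max (H x) 0 * Real.cosh (c / 2 * x)) < ⊤ := by
    refine lt_of_le_of_lt ?_ h3
    rw [h1, h2]
    exact ENNReal.tsum_le_tsum fun k => mul_le_mul_right (moment hκ hm hB hC hl hz k) _
  have h5 : Integrable fun x => max (H x) 0 * Real.cosh (c / 2 * x) := by
    refine ⟨(hmp.mul (by fun_prop)).aestronglyMeasurable, ?_⟩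
    rw [hasFiniteIntegral_iff_ofReal (Eventually.of_forall fun x =>
      mul_nonneg (le_max_right _ _) (Real.cosh_pos _).le)]
    exact h4
  have h6 : Integrable fun x : ℝ => C * Real.exp (-(c / 2 * |x|)) :=
    (integrable_exp_neg_abs (by linarith)).const_mul C
  refine ((h5.const_mul 2).add h6).mono' (hm.abs.mul (by fun_prop)).aestronglyMeasurable ?_
  filter_upwards [hl] with x hx
  rw [Real.norm_eq_abs, abs_mul, abs_abs, abs_of_pos (Real.exp_pos _)]
  show |H x| * Real.exp (c / 2 * |x|) ≤ 2 * (max (H x) 0 * Real.cosh (c / 2 * x)) +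
    C * Real.exp (-(c / 2 * |x|))
  have e : Real.exp (-(c / 2 * |x|)) = Real.exp (-(c * |x|)) * Real.exp (c / 2 * |x|) := by
    rw [← Real.exp_add]; ring_nf
  have h7 : |H x| ≤ max (H x) 0 + C * Real.exp (-(c * |x|)) := by
    rcases abs_cases (H x) with ⟨h, h'⟩ | ⟨h, h'⟩
    · rw [h]
      have := le_max_left (H x) 0
      have : 0 ≤ C * Real.exp (-(c * |x|)) := by positivity
      linarith
    · rw [h]
      have := le_max_right (H x) 0
      linarith
  calc |H x| * Real.exp (c / 2 * |x|) ≤
        (max (H x) 0 + C * Real.exp (-(c * |x|))) * Real.exp (c / 2 * |x|) :=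
        mul_le_mul_of_nonneg_right h7 (Real.exp_pos _).le
    _ = max (H x) 0 * Real.exp (c / 2 * |x|) + C * Real.exp (-(c / 2 * |x|)) := by rw [e]; ring
    _ ≤ _ := by
        have := mul_le_mul_of_nonneg_left (hcosh2 x) (le_max_right (H x) 0)
        linarith

/-- the Fourier transform vanishes near `0` -/
lemma cos_zero (hκ : 0 < κ) (hm : Measurable H) (hB : ∀ x, |H x| ≤ B * (1 + x ^ 2) ^ 2)
    (hC : 0 ≤ C) (hc : 0 < c) (hl : ∀ᵐ x, -(C * Real.exp (-(c * |x|))) ≤ H x)
    (hz : ∀ K, TK κ K → ∫ x, H x * ct K x = 0) {s : ℝ} (hs : |s| ≤ κ / 2) :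
    ∫ x, H x * Real.cos (2 * π * s * x) = 0 := by
  obtain ⟨K, hK, hpos, h0, hle⟩ := exists_pos (κ := κ / 2) (by positivity)
  set M := ct K 0 with hM
  have hi : Integrable H := by
    refine (exp_moment hκ hm hB hC hc hl hz).mono' hm.aestronglyMeasurable
      (Eventually.of_forall fun x => ?_)
    rw [Real.norm_eq_abs]
    exact le_mul_of_one_le_right (abs_nonneg _) (Real.one_le_exp (by positivity))
  have h1 : Tendsto (fun n : ℕ => ∫ x, H x * (Real.cos (2 * π * s * x) *
      ct K (1 / ((n : ℝ) + 1) * x))) atTop (𝓝 (∫ x, H x * (Real.cos (2 * π * s * x) * M))) := by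
    refine tendsto_integral_of_dominated_convergence (fun x => |H x| * M) (fun n => ?_)
      (hi.abs.mul_const M) (fun n => Eventually.of_forall fun x => ?_)
      (Eventually.of_forall fun x => ?_)
    · exact (hm.mul ((by fun_prop : Measurable fun x : ℝ => Real.cos (2 * π * s * x)).mul
        (hK.ct_cont.measurable.comp (by fun_prop)))).aestronglyMeasurable
    · rw [Real.norm_eq_abs, abs_mul, abs_mul, abs_of_nonneg (hpos _)]
      refine mul_le_mul_of_nonneg_left ?_ (abs_nonneg _)
      calc |Real.cos (2 * π * s * x)| * ct K (1 / ((n : ℝ) + 1) * x) ≤ 1 * M :=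
            mul_le_mul (Real.abs_cos_le_one _) (hle _) (hpos _) zero_le_one
        _ = M := one_mul M
    · refine tendsto_const_nhds.mul (tendsto_const_nhds.mul ?_)
      have h1 : Tendsto (fun n : ℕ => 1 / ((n : ℝ) + 1) * x) atTop (𝓝 (0 * x)) :=
        tendsto_one_div_add_atTop_nhds_zero_nat.mul_const x
      rw [zero_mul] at h1
      exact (hK.ct_cont.tendsto 0).comp h1
  have h2 : ∀ n : ℕ, ∫ x, H x * (Real.cos (2 * π * s * x) * ct K (1 / ((n : ℝ) + 1) * x)) = 0 := by
    intro n
    have hε : (0 : ℝ) < 1 / ((n : ℝ) + 1) := by positivity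
    have hε1 : 1 / ((n : ℝ) + 1) ≤ 1 := by
      rw [div_le_one (by positivity)]
      have : (0 : ℝ) ≤ n := Nat.cast_nonneg n
      linarith
    have hK' := (hK.dil hε).modul s
    have hK'' := hK'.mono (κ' := κ) (by nlinarith)
    have h3 := hz _ hK''
    rw [← h3]
    refine integral_congr_ae (Eventually.of_forall fun x => ?_)
    show H x * (Real.cos (2 * π * s * x) * ct K (1 / ((n : ℝ) + 1) * x)) = H x * _
    rw [(hK.dil hε).ct_modul, TK.ct_dil K hε]
  simp_rw [h2] at h1
  have h3 := tendsto_nhds_unique h1 tendsto_const_nhds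
  have h4 : ∫ x, H x * (Real.cos (2 * π * s * x) * M) =
      (∫ x, H x * Real.cos (2 * π * s * x)) * M := by
    rw [← integral_mul_const]
    refine integral_congr_ae (Eventually.of_forall fun x => ?_)
    show H x * (Real.cos (2 * π * s * x) * M) = H x * Real.cos (2 * π * s * x) * M
    ring
  rw [h4] at h3
  exact (mul_eq_zero.1 h3).resolve_right h0.ne'


end

/-- **a function with a spectral gap and exponentially small negative part vanishes** -/
theorem high_pass2 {κ : ℝ} {H : ℝ → ℝ} {B C c : ℝ} (hκ : 0 < κ) (hm : Measurable H)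
    (he : ∀ x, H (-x) = H x) (hB : ∀ x, |H x| ≤ B * (1 + x ^ 2) ^ 2) (hC : 0 ≤ C) (hc : 0 < c)
    (hl : ∀ᵐ x, -(C * Real.exp (-(c * |x|))) ≤ H x)
    (hz : ∀ K, TK κ K → ∫ x, H x * ct K x = 0) : ∀ᵐ x, H x = 0 := by
  have hE := exp_moment hκ hm hB hC hc hl hz
  set a : ℝ := c / 2 with ha
  have ha0 : 0 < a := by rw [ha]; positivity
  set P : ℝ → ℝ := fun x => max (H x) 0 with hP
  set N : ℝ → ℝ := fun x => max (-H x) 0 with hN
  have hPm : Measurable P := hm.max measurable_const
  have hNm : Measurable N := hm.neg.max measurable_const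
  have hP0 : ∀ x, 0 ≤ P x := fun x => le_max_right _ _
  have hN0 : ∀ x, 0 ≤ N x := fun x => le_max_right _ _
  have hPN : ∀ x, H x = P x - N x := by
    intro x
    simp only [hP, hN]
    rcases le_total (H x) 0 with h | h
    · rw [max_eq_right h, max_eq_left (by linarith)]; ring
    · rw [max_eq_left h, max_eq_right (by linarith)]; ring
  have hPle : ∀ x, P x ≤ |H x| := fun x => max_le (le_abs_self _) (abs_nonneg _)
  have hNle : ∀ x, N x ≤ |H x| := fun x => max_le (neg_le_abs _) (abs_nonneg _)
  have hPi : Integrable fun x => P x * Real.exp (a * |x|) := by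
    refine hE.mono' (hPm.mul (by fun_prop)).aestronglyMeasurable (Eventually.of_forall fun x => ?_)
    rw [Real.norm_eq_abs, abs_of_nonneg (mul_nonneg (hP0 x) (Real.exp_pos _).le)]
    exact mul_le_mul_of_nonneg_right (hPle x) (Real.exp_pos _).le
  have hNi : Integrable fun x => N x * Real.exp (a * |x|) := by
    refine hE.mono' (hNm.mul (by fun_prop)).aestronglyMeasurable (Eventually.of_forall fun x => ?_)
    rw [Real.norm_eq_abs, abs_of_nonneg (mul_nonneg (hN0 x) (Real.exp_pos _).le)]
    exact mul_le_mul_of_nonneg_right (hNle x) (Real.exp_pos _).le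
  have hi1 : ∀ x : ℝ, (1 : ℝ) ≤ Real.exp (a * |x|) := fun x => Real.one_le_exp (by positivity)
  have hPi1 : Integrable P := hPi.mono' hPm.aestronglyMeasurable
    (Eventually.of_forall fun x => by
      rw [Real.norm_eq_abs, abs_of_nonneg (hP0 x)]
      exact le_mul_of_one_le_right (hP0 x) (hi1 x))
  have hNi1 : Integrable N := hNi.mono' hNm.aestronglyMeasurable
    (Eventually.of_forall fun x => by
      rw [Real.norm_eq_abs, abs_of_nonneg (hN0 x)]
      exact le_mul_of_one_le_right (hN0 x) (hi1 x))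
  have hHi : Integrable H := by
    have := hPi1.sub hNi1
    exact this.congr (Eventually.of_forall fun x => (hPN x).symm)
  have : IsFiniteMeasure (den P) := isFiniteMeasure_withDensity_ofReal hPi1.2
  have : IsFiniteMeasure (den N) := isFiniteMeasure_withDensity_ofReal hNi1.2
  have hsP := den_exp hPm hP0 hPi
  have hsN := den_exp hNm hN0 hNi
  -- the strip
  set U : Set ℂ := {z | z.re ∈ Set.Ioo (-a) a} with hU
  have hUP : ∀ z ∈ U, z.re ∈ interior (integrableExpSet id (den P)) := fun z hz =>
    interior_mono hsP (by rw [interior_Icc]; exact hz)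
  have hUN : ∀ z ∈ U, z.re ∈ interior (integrableExpSet id (den N)) := fun z hz =>
    interior_mono hsN (by rw [interior_Icc]; exact hz)
  set Φ : ℂ → ℂ := fun z => complexMGF id (den P) z - complexMGF id (den N) z with hΦ
  have han : AnalyticOnNhd ℂ Φ U := fun z hz =>
    (analyticAt_complexMGF (hUP z hz)).sub (analyticAt_complexMGF (hUN z hz))
  have hconv : IsPreconnected U := by
    have : Convex ℝ U := by
      have h1 : U = Complex.reLm ⁻¹' (Set.Ioo (-a) a) := rfl
      rw [h1]
      exact (convex_Ioo _ _).linear_preimage _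
    exact this.isPreconnected
  have h0U : (0 : ℂ) ∈ U := by
    rw [hU]
    simp only [Set.mem_ofPred_eq, Complex.zero_re, Set.mem_Ioo]
    exact ⟨by linarith, ha0⟩
  have hn : ∀ t x : ℝ, ‖Complex.exp (t * Complex.I * ((id x : ℝ) : ℂ))‖ ≤ 1 := by
    intro t x
    have : (t : ℂ) * Complex.I * ((id x : ℝ) : ℂ) = ((t * x : ℝ) : ℂ) * Complex.I := by
      simp only [id]; push_cast; ring
    rw [this, Complex.norm_exp_ofReal_mul_I]
  -- values on the imaginary axis
  have hval : ∀ t : ℝ, Φ (t * Complex.I) = ∫ x, (H x : ℂ) * Complex.exp (t * x * Complex.I) := by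
    intro t
    show complexMGF id (den P) _ - complexMGF id (den N) _ = _
    unfold complexMGF
    rw [den_int hPm hP0, den_int hNm hN0, ← integral_sub]
    · refine integral_congr_ae (Eventually.of_forall fun x => ?_)
      show (P x : ℂ) * Complex.exp (t * Complex.I * ((id x : ℝ) : ℂ)) -
        (N x : ℂ) * Complex.exp (t * Complex.I * ((id x : ℝ) : ℂ)) =
        (H x : ℂ) * Complex.exp (t * x * Complex.I)
      have e1 : (t : ℂ) * Complex.I * ((id x : ℝ) : ℂ) = t * x * Complex.I := by
        simp only [id]; ring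
      rw [e1, hPN x]
      push_cast
      ring
    · exact (hPi1.ofReal (𝕜 := ℂ)).mul_bdd (c := 1) (by fun_prop)
        (Eventually.of_forall fun x => hn t x)
    · exact (hNi1.ofReal (𝕜 := ℂ)).mul_bdd (c := 1) (by fun_prop)
        (Eventually.of_forall fun x => hn t x)
  have hzero : ∀ t : ℝ, |t| ≤ π * κ → Φ (t * Complex.I) = 0 := by
    intro t ht
    rw [hval]
    have hc0 : ∫ x, H x * Real.cos (t * x) = 0 := by
      have h1 := cos_zero hκ hm hB hC hc hl hz (s := t / (2 * π)) (by
        rw [abs_div, abs_of_pos (by positivity : (0 : ℝ) < 2 * π), div_le_iff₀ (by positivity)]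
        linarith)
      rw [← h1]
      refine integral_congr_ae (Eventually.of_forall fun x => ?_)
      show H x * Real.cos (t * x) = H x * Real.cos (2 * π * (t / (2 * π)) * x)
      have : 2 * π * (t / (2 * π)) = t := by field_simp
      rw [this]
    have hs0 : ∫ x, H x * Real.sin (t * x) = 0 := by
      have h1 : ∫ x, H x * Real.sin (t * x) = ∫ x, H (-x) * Real.sin (t * (-x)) :=
        (integral_neg_eq_self (fun x => H x * Real.sin (t * x)) volume).symm
      have h2 : ∫ x, H (-x) * Real.sin (t * (-x)) = -∫ x, H x * Real.sin (t * x) := by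
        rw [← integral_neg]
        refine integral_congr_ae (Eventually.of_forall fun x => ?_)
        show H (-x) * Real.sin (t * (-x)) = -(H x * Real.sin (t * x))
        rw [he, mul_neg, Real.sin_neg]
        ring
      linarith
    have hic : Integrable fun x => H x * Real.cos (t * x) :=
      hHi.mul_bdd (c := 1) (by fun_prop) (Eventually.of_forall fun x => by
        rw [Real.norm_eq_abs]; exact Real.abs_cos_le_one _)
    have his : Integrable fun x => H x * Real.sin (t * x) :=
      hHi.mul_bdd (c := 1) (by fun_prop) (Eventually.of_forall fun x => by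
        rw [Real.norm_eq_abs]; exact Real.abs_sin_le_one _)
    have e : ∀ x : ℝ, (H x : ℂ) * Complex.exp (t * x * Complex.I) =
        ((H x * Real.cos (t * x) : ℝ) : ℂ) + ((H x * Real.sin (t * x) : ℝ) : ℂ) * Complex.I := by
      intro x
      rw [Complex.exp_mul_I]
      push_cast
      ring
    simp_rw [e]
    rw [integral_add hic.ofReal (his.ofReal.mul_const _), integral_mul_const]
    have i1 : ∫ x, ((H x * Real.cos (t * x) : ℝ) : ℂ) = ((∫ x, H x * Real.cos (t * x) : ℝ) : ℂ) :=
      integral_ofReal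
    have i2 : ∫ x, ((H x * Real.sin (t * x) : ℝ) : ℂ) = ((∫ x, H x * Real.sin (t * x) : ℝ) : ℂ) :=
      integral_ofReal
    rw [i1, i2, hc0, hs0]
    simp
  have hfreq : ∃ᶠ z in 𝓝[≠] (0 : ℂ), Φ z = 0 := by
    have ht : Tendsto (fun n : ℕ => (((π * κ * (1 / ((n : ℝ) + 1)) : ℝ) : ℂ) * Complex.I)) atTop
        (𝓝[≠] (0 : ℂ)) := by
      rw [tendsto_nhdsWithin_iff]
      constructor
      · have h1 : Tendsto (fun n : ℕ => π * κ * (1 / ((n : ℝ) + 1))) atTop (𝓝 (π * κ * 0)) :=
          tendsto_one_div_add_atTop_nhds_zero_nat.const_mul _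
        rw [mul_zero] at h1
        have h2 := (Complex.continuous_ofReal.tendsto 0).comp h1
        have h3 := h2.mul_const Complex.I
        rw [Complex.ofReal_zero, zero_mul] at h3
        exact h3
      · refine Eventually.of_forall fun n => ?_
        rw [Set.mem_compl_iff, Set.mem_singleton_iff, mul_eq_zero, not_or]
        refine ⟨?_, Complex.I_ne_zero⟩
        rw [Complex.ofReal_eq_zero]
        have : 0 < π * κ * (1 / ((n : ℝ) + 1)) := by
          have := Real.pi_pos
          positivity
        exact this.ne'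
    refine ht.frequently (Eventually.frequently (Eventually.of_forall fun n => ?_))
    refine hzero _ ?_
    have hp := Real.pi_pos
    have h1 : (0 : ℝ) < 1 / ((n : ℝ) + 1) := by positivity
    have h2 : 1 / ((n : ℝ) + 1) ≤ 1 := by
      rw [div_le_one (by positivity)]
      have : (0 : ℝ) ≤ n := Nat.cast_nonneg n
      linarith
    rw [abs_of_pos (by positivity)]
    exact mul_le_of_le_one_right (by positivity) h2
  have hall := han.eqOn_zero_of_preconnected_of_frequently_eq_zero hconv h0U hfreq
  have hchar : charFun (den P) = charFun (den N) := by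
    funext t
    have h1 : ((t : ℂ) * Complex.I) ∈ U := by
      rw [hU]
      simp only [Set.mem_ofPred_eq, Complex.mul_re, Complex.ofReal_re, Complex.I_re, mul_zero,
        Complex.ofReal_im, Complex.I_im, mul_one, sub_self, Set.mem_Ioo]
      exact ⟨by linarith, ha0⟩
    have h2 := hall h1
    have h3 : complexMGF id (den P) (t * Complex.I) = complexMGF id (den N) (t * Complex.I) :=
      sub_eq_zero.1 h2
    rwa [complexMGF_id_mul_I, complexMGF_id_mul_I] at h3
  have hmeas := Measure.ext_of_charFun hchar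
  have hfin : ∫⁻ x, ENNReal.ofReal (P x) ≠ ⊤ := hPi1.lintegral_lt_top.ne
  have heq := (withDensity_eq_iff hPm.ennreal_ofReal.aemeasurable hNm.ennreal_ofReal.aemeasurable
    hfin).1 hmeas
  filter_upwards [heq] with x hx
  have h1 : P x = N x := (ENNReal.ofReal_eq_ofReal_iff (hP0 x) (hN0 x)).1 hx
  rw [hPN x, h1, sub_self]


end Pool.Agent.H424.TW
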