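import Pool.Agent.H424.TW.Fu
import Pool.Agent.H424.TW.Hp
import Pool.Agent.Y744.PCR.Win

/-! The sign of the discrepancy of the long symmetric windows decides the pair correlation
conjecture. -/

open MeasureTheory Filter Topology Real

namespace Pool.Agent.H424.TW

open Pool.Agent.Y744

/-- the limit function along an ultrafilter -/
lemma exists_limit' (RH : RiemannHypothesis) {κ : ℝ} (hκ0 : 0 < κ) (hκ1 : κ < 1) (g : Ultrafilter ℝ) (hgt : (g : Filter ℝ) ≤ atTop) :
    ∃ (A' : ℝ → ℝ) (C0 : ℝ), Monotone A' ∧ (∀ y, y < 0 → A' y = 0) ∧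
      (∀ y, |A' y| ≤ C0 * (1 + y ^ 2)) ∧ 1 ≤ A' 0 ∧
      (∀ y, Tendsto (fun T => Aa T y) (g : Filter ℝ) (𝓝 (A' y))) ∧
      (∀ K, TK κ K → ∀ h, 0 < h →
        ∫ y, A' y * (ct K (y + h) - ct K (y - h)) = ∫ y, AG y * (ct K (y + h) - ct K (y - h))) := by
  obtain ⟨C0, T0, hT0, hb⟩ := Aa_bound RH
  have hmono : ∀ T, T0 ≤ T → Monotone (Aa T) := fun T hT => Aa_mono (by linarith)
  have hT : ∀ᶠ T in (g : Filter ℝ), T0 ≤ T := hgt (eventually_ge_atTop _)
  have hex : ∀ y, ∃ L, Tendsto (fun T => Aa T y) (g : Filter ℝ) (𝓝 L) := by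
    intro y
    have h1 : ((g.map fun T => Aa T y : Ultrafilter ℝ) : Filter ℝ) ≤
        𝓟 (Set.Icc (-(C0 * (1 + y ^ 2))) (C0 * (1 + y ^ 2))) := by
      rw [le_principal_iff]
      have h2 : ∀ᶠ T in (g : Filter ℝ), Aa T y ∈
          Set.Icc (-(C0 * (1 + y ^ 2))) (C0 * (1 + y ^ 2)) := by
        filter_upwards [hT] with T hT1
        exact abs_le.1 (hb T hT1 y)
      exact h2
    obtain ⟨L, _, hL⟩ := isCompact_Icc.ultrafilter_le_nhds _ h1
    exact ⟨L, hL⟩
  choose A' hlim using hex
  have hA' : Monotone A' := by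
    intro a b hab
    refine le_of_tendsto_of_tendsto (hlim a) (hlim b) ?_
    filter_upwards [hT] with T hT1 using hmono T hT1 hab
  refine ⟨A', C0, hA', fun y hy => ?_, fun y => ?_, ?_, hlim, fun K hK h hh => ?_⟩
  · refine tendsto_nhds_unique (hlim y) ?_
    have : (fun T => Aa T y) = fun _ => 0 := funext fun T => Aa_neg T y hy
    rw [this]
    exact tendsto_const_nhds
  · refine le_of_tendsto (hlim y).abs ?_
    filter_upwards [hT] with T hT1 using hb T hT1 y
  · refine le_of_forall_pos_le_add fun ε hε => ?_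
    have h1 : ∀ᶠ T in (g : Filter ℝ), 1 - ε ≤ Aa T 0 := hgt (Aa_diag hε)
    have := ge_of_tendsto (hlim 0) h1
    linarith
  · obtain ⟨D, hD⟩ := test_decay hK h
    refine lim_int hmono hb ?_ hD ?_ hgt hA' hlim
    · exact (hK.ct_cont.measurable.comp (by fun_prop)).sub
        (hK.ct_cont.measurable.comp (by fun_prop))
    · have h1 := (mont_lim RH (NTf_fav hK hκ0 hκ1 hh)).neg
      rw [AG_mont hK hκ1 hh]
      refine h1.congr fun T => ?_
      rw [Aa_int hK hh]
      rw [div_eq_inv_mul]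

/-- a limit whose discrepancy, times a multiplier, is bounded below by an exponentially small
quantity for large windows -/
lemma rigid {A' : ℝ → ℝ} {C0 κ : ℝ} (hκ : 0 < κ) (hA' : Monotone A')
    (hneg : ∀ y, y < 0 → A' y = 0)
    (hb : ∀ y, |A' y| ≤ C0 * (1 + y ^ 2)) (h0 : 1 ≤ A' 0) {m : ℝ → ℝ} (hmm : Measurable m)
    (hmo : ∀ x, m (-x) = -m x) {W : ℝ} (hW : 0 ≤ W) (hmb : ∀ x, |m x| ≤ W * (1 + x ^ 2))
    (hmz : ∀ᵐ x, m x ≠ 0)
    (hz' : ∀ K, TK κ K → ∫ y, (m y * dE A' y) * ct K y = 0)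
    {C c R : ℝ} (hC : 0 ≤ C) (hc : 0 < c) (hR : 0 < R)
    (hyp : ∀ β, R ≤ β → -(C * Real.exp (-(c * β))) ≤ m β * (A' β - AG β)) (x : ℝ) :
    A' x = AG x := by
  have hEm := dE_meas hA'
  have hEb := dE_bound hb
  have hEo := dE_odd A'
  have hB1 : 0 ≤ 2 * C0 + 4 := by
    have := (abs_nonneg _).trans (hEb 0)
    simpa using this
  set B : ℝ := W * (2 * C0 + 4) with hBdef
  have hB0 : 0 ≤ B := by positivity
  set H : ℝ → ℝ := fun y => m y * dE A' y with hH
  have hHm : Measurable H := hmm.mul hEm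
  have hHe : ∀ x, H (-x) = H x := fun x => by
    simp only [hH]
    rw [hEo, hmo]
    ring
  have hHb : ∀ x, |H x| ≤ B * (1 + x ^ 2) ^ 2 := fun x => by
    simp only [hH]
    rw [abs_mul]
    calc |m x| * |dE A' x| ≤ (W * (1 + x ^ 2)) * ((2 * C0 + 4) * (1 + x ^ 2)) :=
          mul_le_mul (hmb x) (hEb x) (abs_nonneg _) (by positivity)
      _ = B * (1 + x ^ 2) ^ 2 := by ring
  have hz : ∀ K, TK κ K → ∫ x, H x * ct K x = 0 := hz'
  set M : ℝ := B * (1 + R ^ 2) ^ 2 with hM
  have hM0 : 0 ≤ M := by positivity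
  set C' : ℝ := C + M * Real.exp (c * R) with hC'
  have hC'0 : 0 ≤ C' := by positivity
  have hlt : ∀ t, 0 ≤ t → -(C' * Real.exp (-(c * t))) ≤ H t := by
    intro t ht
    have he := Real.exp_pos (-(c * t))
    rcases lt_or_ge t R with h | h
    · have h1 : -M ≤ H t := by
        have h2 := (abs_le.1 (hHb t)).1
        have h3 : B * (1 + t ^ 2) ^ 2 ≤ M := by
          rw [hM]
          gcongr
        linarith
      have h2 : 1 ≤ Real.exp (c * R) * Real.exp (-(c * t)) := by
        rw [← Real.exp_add]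
        refine Real.one_le_exp ?_
        nlinarith
      have h3 : M ≤ C' * Real.exp (-(c * t)) := by
        have h4 : M * 1 ≤ M * (Real.exp (c * R) * Real.exp (-(c * t))) :=
          mul_le_mul_of_nonneg_left h2 hM0
        have h5 : 0 ≤ C * Real.exp (-(c * t)) := by positivity
        rw [hC', add_mul]
        linarith
      linarith
    · have ht0 : 0 < t := hR.trans_le h
      have h1 := hyp t h
      have h2 : H t = m t * (A' t - AG t) := by
        simp only [hH]
        rw [dE_pos hneg ht0]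
      have h6 : C * Real.exp (-(c * t)) ≤ C' * Real.exp (-(c * t)) := by
        refine mul_le_mul_of_nonneg_right ?_ he.le
        rw [hC']
        have : 0 ≤ M * Real.exp (c * R) := by positivity
        linarith
      linarith
  have hl : ∀ x, -(C' * Real.exp (-(c * |x|))) ≤ H x := by
    intro x
    have h1 := hlt |x| (abs_nonneg x)
    have h2 : H |x| = H x := by
      rcases abs_cases x with ⟨h, _⟩ | ⟨h, _⟩
      · rw [h]
      · rw [h, hHe]
    rwa [h2] at h1
  have hH0 := high_pass2 hκ hHm hHe hHb hC'0 hc (Eventually.of_forall hl) hz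
  have hE0 : ∀ᵐ x, dE A' x = 0 := by
    filter_upwards [hH0, hmz] with x hx hx2
    have h1 : m x * dE A' x = 0 := hx
    exact (mul_eq_zero.1 h1).resolve_left hx2
  have hsh : ∀ ℓ : ℝ, ∀ᵐ x, dE A' (x + ℓ) = dE A' x := by
    intro ℓ
    have h1 := (measurePreserving_add_right (volume : Measure ℝ) ℓ).quasiMeasurePreserving.ae hE0
    filter_upwards [h1, hE0] with x h2 h3
    rw [h2, h3]
  refine limit_eq hA' hneg hb h0 (l1 := √2) (l2 := 1) ?_ (hsh _) (hsh _) x
  rw [div_one]
  exact irrational_sqrt_two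

lemma ae_ne_of_analytic {f : ℝ → ℝ} (hf : AnalyticOnNhd ℝ f Set.univ) {x0 : ℝ} (h0 : f x0 ≠ 0) :
    ∀ᵐ x, f x ≠ 0 := by
  have h1 := hf.preimage_zero_mem_codiscreteWithin (x := x0) h0 (Set.mem_univ _) isConnected_univ
  have h2 := ae_restrict_le_codiscreteWithin (μ := (volume : Measure ℝ)) MeasurableSet.univ h1
  rw [Measure.restrict_univ] at h2
  exact h2

lemma ae_ne_zero : ∀ᵐ x : ℝ, x ≠ 0 := by
  rw [ae_iff]
  simp

lemma exp_shift {C c t : ℝ} (hC : 0 ≤ C) (hc : 0 < c) (_ht : 0 ≤ t) :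
    t * (C * Real.exp (-(c * t))) ≤ C * (2 / c) * Real.exp (-(c / 2 * t)) := by
  have h4 : Real.exp (-(c * t)) = Real.exp (-(c / 2 * t)) * Real.exp (-(c / 2 * t)) := by
    rw [← Real.exp_add]
    ring_nf
  have h5 : t * Real.exp (-(c / 2 * t)) ≤ 2 / c := by
    have h6 := Real.add_one_le_exp (c / 2 * t)
    rw [Real.exp_neg, ← div_eq_mul_inv, div_le_div_iff₀ (Real.exp_pos _) hc]
    nlinarith
  calc t * (C * Real.exp (-(c * t))) =
        C * (t * Real.exp (-(c / 2 * t))) * Real.exp (-(c / 2 * t)) := by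
        rw [h4]
        ring
    _ ≤ C * (2 / c) * Real.exp (-(c / 2 * t)) := by gcongr

/-- **the discrepancy of the long windows cannot have the sign of an even or odd trigonometric
polynomial of degree less than one** -/
theorem Aa_tail (RH : RiemannHypothesis) {l : Filter ℝ} (hl : l ≤ atTop) {A C c R : ℝ} {n : ℕ}
    {a d : ℕ → ℝ} {w : ℝ → ℝ} (hA1 : A < 1) (ha : ∀ j < n, |a j| ≤ A)
    (hw : (∀ β, w β = ∑ j ∈ Finset.range n, d j * Real.cos (2 * π * a j * β)) ∨
      (∀ β, w β = ∑ j ∈ Finset.range n, d j * Real.sin (2 * π * a j * β)))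
    (hw0 : ∃ β, w β ≠ 0) (hC : 0 ≤ C) (hc : 0 < c) (hR : 0 < R)
    (hyp : ∀ β, R ≤ β → ∀ ε, 0 < ε → ∀ᶠ T in l,
      -(C * Real.exp (-(c * β))) - ε ≤ w β * (Aa T β - AG β)) (x : ℝ) :
    Tendsto (fun T => Aa T x) l (𝓝 (AG x)) := by
  obtain ⟨A1, hA⟩ : ∃ A1 : ℝ, A1 = max A 0 := ⟨_, rfl⟩
  have hA10 : 0 ≤ A1 := by rw [hA]; exact le_max_right _ _
  have hA11 : A1 < 1 := by rw [hA]; exact max_lt hA1 one_pos
  have hA12 : A ≤ A1 := by rw [hA]; exact le_max_left _ _
  obtain ⟨κ, hκ⟩ : ∃ κ : ℝ, κ = (1 - A1) / 3 := ⟨_, rfl⟩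
  obtain ⟨κ', hκ'⟩ : ∃ κ' : ℝ, κ' = (2 + A1) / 3 := ⟨_, rfl⟩
  have k0 : 0 < κ := by linarith
  have k1 : ∀ j < n, κ + |a j| < κ' := by
    intro j hj
    have := ha j hj
    linarith
  have k2 : 0 < κ' := by linarith
  have k3 : κ' < 1 := by linarith
  rw [tendsto_iff_ultrafilter]
  intro g hg
  obtain ⟨A', C0, hA', hneg, hb, h0, hlim, hm⟩ := exists_limit' RH k2 k3 g (hg.trans hl)
  have h1 : ∀ β, R ≤ β → -(C * Real.exp (-(c * β))) ≤ w β * (A' β - AG β) := by
    intro β hβ
    refine le_of_forall_pos_le_add fun ε hε => ?_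
    have h2 := ((hlim β).sub_const (AG β)).const_mul (w β)
    have h3 := ge_of_tendsto h2 (hg (hyp β hβ ε hε))
    linarith
  have hEm := dE_meas hA'
  have hEb := dE_bound hb
  have hEo := dE_odd A'
  have hann : ∀ K1, TK κ' K1 → ∀ h, 0 < h →
      ∫ y, (dE A' (y + h) - dE A' (y - h)) * ct K1 y = 0 := fun K1 hK1 h hh =>
    annih hK1 hA' hb h (hm K1 hK1 h hh)
  obtain ⟨W, hWd⟩ : ∃ W : ℝ, W = ∑ j ∈ Finset.range n, |d j| := ⟨_, rfl⟩
  have hW : 0 ≤ W := by rw [hWd]; exact Finset.sum_nonneg fun _ _ => abs_nonneg _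
  have habs : ∀ y : ℝ, |y| ≤ 1 + y ^ 2 := fun y => by
    rw [← sq_abs y]
    nlinarith [sq_nonneg (|y| - 1), abs_nonneg y]
  have hB1 : 0 ≤ 2 * C0 + 4 := by
    have := (abs_nonneg _).trans (hEb 0)
    simpa using this
  -- linearity
  have hlin : ∀ (e : ℕ → ℝ → ℝ), (∀ j, Measurable (e j)) → (∀ j y, |e j y| ≤ 1 + y ^ 2) →
      ∀ K, TK κ K → (∀ j < n, ∫ y, (e j y * dE A' y) * ct K y = 0) →
      ∫ y, ((∑ j ∈ Finset.range n, d j * e j y) * dE A' y) * ct K y = 0 := by
    intro e he heb K hK hz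
    have hi : ∀ j, Integrable fun y => (e j y * dE A' y) * ct K y := by
      intro j
      refine int_mul_ct (B := 2 * C0 + 4) ((he j).mul hEm) (fun y => ?_) hK
      rw [Pi.mul_apply, abs_mul]
      calc |e j y| * |dE A' y| ≤ (1 + y ^ 2) * ((2 * C0 + 4) * (1 + y ^ 2)) :=
            mul_le_mul (heb j y) (hEb y) (abs_nonneg _) (by positivity)
        _ = (2 * C0 + 4) * (1 + y ^ 2) ^ 2 := by ring
    have e1 : ∫ y, ((∑ j ∈ Finset.range n, d j * e j y) * dE A' y) * ct K y =
        ∫ y, ∑ j ∈ Finset.range n, d j * ((e j y * dE A' y) * ct K y) := by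
      refine integral_congr_ae (Eventually.of_forall fun y => ?_)
      show ((∑ j ∈ Finset.range n, d j * e j y) * dE A' y) * ct K y = _
      rw [Finset.sum_mul, Finset.sum_mul]
      refine Finset.sum_congr rfl fun j _ => ?_
      ring
    rw [e1, integral_finsetSum _ fun j _ => (hi j).const_mul _]
    refine Finset.sum_eq_zero fun j hj => ?_
    rw [integral_const_mul, hz j (Finset.mem_range.1 hj), mul_zero]
  obtain ⟨β0, hβ0⟩ := hw0
  have h2 : A' x = AG x := by
    rcases hw with hw | hw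
    · have hwf : w = fun β => ∑ j ∈ Finset.range n, d j * Real.cos (2 * π * a j * β) :=
        funext hw
      have hwm : Measurable w := by rw [hwf]; fun_prop
      have hwe : ∀ y, w (-y) = w y := fun y => by
        rw [hw, hw]
        refine Finset.sum_congr rfl fun j _ => ?_
        rw [mul_neg (2 * π * a j), Real.cos_neg]
      have hwb : ∀ y, |w y| ≤ W := fun y => by
        rw [hw, hWd]
        refine (Finset.abs_sum_le_sum_abs _ _).trans (Finset.sum_le_sum fun j _ => ?_)
        rw [abs_mul]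
        exact mul_le_of_le_one_right (abs_nonneg _) (Real.abs_cos_le_one _)
      have hwa : AnalyticOnNhd ℝ w Set.univ := by
        rw [hwf]
        intro y _
        fun_prop
      refine rigid (m := fun y => y * w y) k0 hA' hneg hb h0
        (measurable_id.mul hwm) (fun y => ?_) hW (fun y => ?_) ?_ (fun K hK => ?_)
        (C := C * (2 / c)) (c := c / 2) (by positivity) (by positivity) hR (fun β hβ => ?_) x
      · show -y * w (-y) = -(y * w y)
        rw [hwe]
        ring
      · show |y * w y| ≤ W * (1 + y ^ 2)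
        rw [abs_mul, mul_comm W]
        exact mul_le_mul (habs y) (hwb y) (abs_nonneg _) (by positivity)
      · filter_upwards [ae_ne_of_analytic hwa hβ0, ae_ne_zero] with y h3 h4
        exact mul_ne_zero h4 h3
      · have h3 := hlin (fun j y => y * Real.cos (2 * π * a j * y)) (fun j => by fun_prop)
          (fun j y => by
            rw [abs_mul]
            exact (mul_le_of_le_one_right (abs_nonneg _) (Real.abs_cos_le_one _)).trans (habs y))
          K hK (fun j hj => annih_cos k0 (k1 j hj) hK hEm hEo hEb hann)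
        rw [← h3]
        refine integral_congr_ae (Eventually.of_forall fun y => ?_)
        show (y * w y * dE A' y) * ct K y =
          ((∑ j ∈ Finset.range n, d j * (y * Real.cos (2 * π * a j * y))) * dE A' y) * ct K y
        rw [hw, Finset.mul_sum]
        congr 2
        refine Finset.sum_congr rfl fun j _ => ?_
        ring
      · have h3 := h1 β hβ
        have hβ0 : 0 ≤ β := hR.le.trans hβ
        have h4 := exp_shift hC hc hβ0
        have h5 := mul_le_mul_of_nonneg_left h3 hβ0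
        show _ ≤ (β * w β) * (A' β - AG β)
        have h6 : (β * w β) * (A' β - AG β) = β * (w β * (A' β - AG β)) := by ring
        rw [h6]
        linarith
    · have hwf : w = fun β => ∑ j ∈ Finset.range n, d j * Real.sin (2 * π * a j * β) :=
        funext hw
      have hwm : Measurable w := by rw [hwf]; fun_prop
      have hwb : ∀ y, |w y| ≤ W := fun y => by
        rw [hw, hWd]
        refine (Finset.abs_sum_le_sum_abs _ _).trans (Finset.sum_le_sum fun j _ => ?_)
        rw [abs_mul]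
        exact mul_le_of_le_one_right (abs_nonneg _) (Real.abs_sin_le_one _)
      have hwa : AnalyticOnNhd ℝ w Set.univ := by
        rw [hwf]
        intro y _
        fun_prop
      refine rigid (m := w) k0 hA' hneg hb h0 hwm (fun y => ?_) hW (fun y => ?_) ?_
        (fun K hK => ?_) hC hc hR (fun β hβ => h1 β hβ) x
      · rw [hw, hw, ← Finset.sum_neg_distrib]
        refine Finset.sum_congr rfl fun j _ => ?_
        rw [mul_neg (2 * π * a j), Real.sin_neg]
        ring
      · refine (hwb y).trans ?_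
        have := sq_nonneg y
        nlinarith
      · exact ae_ne_of_analytic hwa hβ0
      · have h3 := hlin (fun j y => Real.sin (2 * π * a j * y)) (fun j => by fun_prop)
          (fun j y => by
            have := sq_nonneg y
            exact (Real.abs_sin_le_one _).trans (by linarith))
          K hK (fun j hj => annih_sin k0 (k1 j hj) hK hEm hEo hEb hann)
        rw [← h3]
        refine integral_congr_ae (Eventually.of_forall fun y => ?_)
        show (w y * dE A' y) * ct K y = _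
        rw [hw]
  rw [← h2]
  exact hlim x

end Pool.Agent.H424.TW
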