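import Pool.Agent.Y744.PCR.Core

/-! The reproducing formula and the spectral gap. -/

open MeasureTheory Filter Topology Real
open scoped ContDiff SchwartzMap FourierTransform Convolution

namespace Pool.Agent.H424.TW

open Pool.Agent.Y744

/-- a bump function equal to one -/
lemma exists_one {κ κ' : ℝ} (hκ : 0 < κ) (hκ' : κ < κ') :
    ∃ K, TK κ' K ∧ ∀ x, |x| ≤ κ → K x = 1 := by
  let f : ContDiffBump (0 : ℝ) := ⟨κ, κ', hκ, hκ'⟩
  refine ⟨fun x => f x, ⟨f.contDiff, fun x => f.neg x, fun x hx => ?_⟩, fun x hx => ?_⟩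
  · by_contra hne
    have h1 : x ∈ Function.support f := hne
    rw [f.support_eq] at h1
    rw [Metric.mem_ball, Real.dist_eq, sub_zero] at h1
    exact absurd hx (not_lt.2 h1.le)
  · refine f.one_of_mem_closedBall ?_
    rw [Metric.mem_closedBall, Real.dist_eq, sub_zero]
    exact hx

lemma W_zero {κ : ℝ} {K Dd : ℝ → ℝ} {B : ℝ} (hK : TK κ K) (hm : Measurable Dd)
    (hodd : ∀ x, Dd (-x) = -Dd x) (hB : ∀ x, |Dd x| ≤ B * (1 + x ^ 2))
    (ha : ∀ h, 0 < h → ∫ y, (Dd (y + h) - Dd (y - h)) * ct K y = 0) (h : ℝ) :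
    ∫ y, Dd y * ct K (y - h) = 0 := by
  have i1 : ∀ h, Integrable fun y => Dd y * ct K (y + h) := fun h => test_int hK hm hB h
  have e1 : ∀ h, ∫ y, Dd (y + h) * ct K y = ∫ y, Dd y * ct K (y - h) := by
    intro h
    have := integral_add_right_eq_self (μ := volume) (fun y => Dd y * ct K (y - h)) h
    rw [← this]
    refine integral_congr_ae (Eventually.of_forall fun y => ?_)
    show Dd (y + h) * ct K y = Dd (y + h) * ct K (y + h - h)
    rw [add_sub_cancel_right]
  have i2 : ∀ h, Integrable fun y => Dd (y + h) * ct K y := by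
    intro h
    have := (i1 (-h)).comp_add_right h
    refine this.congr (Eventually.of_forall fun y => ?_)
    show Dd (y + h) * ct K (y + h + -h) = Dd (y + h) * ct K y
    rw [add_neg_cancel_right]
  have hW : ∀ h, ∫ y, Dd y * ct K (y - -h) = -∫ y, Dd y * ct K (y - h) := by
    intro h
    rw [← integral_neg_eq_self, ← integral_neg]
    refine integral_congr_ae (Eventually.of_forall fun y => ?_)
    show Dd (-y) * ct K (-y - -h) = -(Dd y * ct K (y - h))
    rw [hodd, ← TK.ct_neg K (y - h)]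
    have : -y - -h = -(y - h) := by ring
    rw [this]
    ring
  have hpos : ∀ h, 0 < h → ∫ y, Dd y * ct K (y - h) = 0 := by
    intro h hh
    have h1 := ha h hh
    have h2 : ∫ y, (Dd (y + h) - Dd (y - h)) * ct K y =
        (∫ y, Dd (y + h) * ct K y) - ∫ y, Dd (y + -h) * ct K y := by
      rw [← integral_sub (i2 h) (i2 (-h))]
      refine integral_congr_ae (Eventually.of_forall fun y => ?_)
      show (Dd (y + h) - Dd (y - h)) * ct K y = Dd (y + h) * ct K y - Dd (y + -h) * ct K y
      rw [← sub_eq_add_neg]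
      ring
    rw [h2, e1, e1, hW] at h1
    linarith
  rcases lt_trichotomy h 0 with hh | hh | hh
  · have := hpos (-h) (by linarith)
    have h2 := hW (-h)
    rw [neg_neg] at h2
    rw [h2, this, neg_zero]
  · have := hW 0
    rw [neg_zero] at this
    rw [hh]
    linarith
  · exact hpos h hh

/-- real functions of compact support as Schwartz functions -/
noncomputable def sch {f : ℝ → ℝ} (h1 : HasCompactSupport f) (h2 : ContDiff ℝ ∞ f) : 𝓢(ℝ, ℂ) :=
  HasCompactSupport.toSchwartzMap (f := fun x => (f x : ℂ))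
    (h1.comp_left (g := fun x : ℝ => (x : ℂ)) Complex.ofReal_zero)
    (Complex.ofRealCLM.contDiff.comp h2)

lemma sch_apply {f : ℝ → ℝ} (h1 : HasCompactSupport f) (h2 : ContDiff ℝ ∞ f) (x : ℝ) :
    sch h1 h2 x = (f x : ℂ) := rfl

lemma inv_sch {f : ℝ → ℝ} (h1 : HasCompactSupport f) (h2 : ContDiff ℝ ∞ f) (w : ℝ) :
    (𝓕⁻ (sch h1 h2)) w = ((∫ v, f v * Real.cos (2 * π * w * v) : ℝ) : ℂ) +
      ((∫ v, f v * Real.sin (2 * π * w * v) : ℝ) : ℂ) * Complex.I := by
  have hi : ∀ g : ℝ → ℝ, Continuous g → Integrable fun v => f v * g v := fun g hg =>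
    (h2.continuous.mul hg).integrable_of_hasCompactSupport h1.mul_right
  rw [SchwartzMap.fourierInv_coe, Real.fourierInv_eq']
  have hc : Integrable fun v => ((f v * Real.cos (2 * π * w * v) : ℝ) : ℂ) :=
    (hi (fun v => Real.cos (2 * π * w * v)) (by fun_prop)).ofReal
  have hs0 : Integrable fun v => ((f v * Real.sin (2 * π * w * v) : ℝ) : ℂ) :=
    (hi (fun v => Real.sin (2 * π * w * v)) (by fun_prop)).ofReal
  have hs := hs0.mul_const Complex.I
  have e1 : ((∫ v, f v * Real.cos (2 * π * w * v) : ℝ) : ℂ) =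
    ∫ v, ((f v * Real.cos (2 * π * w * v) : ℝ) : ℂ) := integral_ofReal.symm
  have e2 : ((∫ v, f v * Real.sin (2 * π * w * v) : ℝ) : ℂ) =
    ∫ v, ((f v * Real.sin (2 * π * w * v) : ℝ) : ℂ) := integral_ofReal.symm
  rw [e1, e2, ← integral_mul_const, ← integral_add hc hs]
  refine integral_congr_ae (Eventually.of_forall fun v => ?_)
  show Complex.exp (((2 * π * inner ℝ v w : ℝ) : ℂ) * Complex.I) • (f v : ℂ) = _
  have e3 : inner ℝ v w = w * v := by
    simp
  rw [e3, Complex.exp_mul_I, ← Complex.ofReal_cos, ← Complex.ofReal_sin, smul_eq_mul]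
  have e4 : 2 * π * (w * v) = 2 * π * w * v := by ring
  rw [e4]
  push_cast
  ring

/-- sine transform -/
noncomputable def st (k : ℝ → ℝ) (x : ℝ) : ℝ := ∫ v, k v * Real.sin (2 * π * x * v)

/-- the reproducing formula -/
lemma repro' {κ κ' : ℝ} {k K1 : ℝ → ℝ} (hs1 : ContDiff ℝ ∞ k) (hc1 : HasCompactSupport k)
    (hodd : ∀ x, k (-x) = -k x) (hsupp : ∀ x, κ < |x| → k x = 0) (hK1 : TK κ' K1)
    (h1 : ∀ x, |x| ≤ κ → K1 x = 1) (y : ℝ) :
    st k y = ∫ t, ct K1 t * st k (y - t) := by
  set s1 := sch hK1.hcs hK1.smooth with hs1'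
  set s2 := sch hc1 hs1 with hs2'
  have hF1 : ∀ w, (𝓕⁻ s1) w = ((ct K1 w : ℝ) : ℂ) := by
    intro w
    rw [hs1', inv_sch, hK1.sin_zero]
    unfold ct
    simp
  have hcos0 : ∀ w : ℝ, ∫ v, k v * Real.cos (2 * π * w * v) = 0 := by
    intro w
    have h1 : ∫ v, k v * Real.cos (2 * π * w * v) =
        ∫ v, k (-v) * Real.cos (2 * π * w * (-v)) :=
      (integral_neg_eq_self (fun v => k v * Real.cos (2 * π * w * v)) volume).symm
    have h2 : ∫ v, k (-v) * Real.cos (2 * π * w * (-v)) =
        -∫ v, k v * Real.cos (2 * π * w * v) := by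
      rw [← integral_neg]
      refine integral_congr_ae (Eventually.of_forall fun v => ?_)
      show k (-v) * Real.cos (2 * π * w * (-v)) = -(k v * Real.cos (2 * π * w * v))
      rw [hodd, mul_neg, Real.cos_neg]
      ring
    linarith
  have hF2 : ∀ w, (𝓕⁻ s2) w = ((st k w : ℝ) : ℂ) * Complex.I := by
    intro w
    rw [hs2', inv_sch, hcos0]
    unfold st
    push_cast
    ring
  have hconv : SchwartzMap.convolution (ContinuousLinearMap.mul ℂ ℂ) (𝓕⁻ s1) (𝓕⁻ s2) =
      𝓕⁻ s2 := by
    have e0 : SchwartzMap.convolution (ContinuousLinearMap.mul ℂ ℂ) (𝓕⁻ s1) (𝓕⁻ s2) =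
      𝓕⁻ (𝓕 (SchwartzMap.convolution (ContinuousLinearMap.mul ℂ ℂ) (𝓕⁻ s1) (𝓕⁻ s2))) := by
      simp
    rw [e0, SchwartzMap.fourier_convolution]
    congr 1
    ext x
    rw [SchwartzMap.pairing_apply_apply]
    simp only [FourierTransform.fourier_fourierInv_eq, ContinuousLinearMap.mul_apply']
    rw [hs1', hs2', sch_apply, sch_apply]
    by_cases hx : κ < |x|
    · rw [hsupp x hx]
      simp
    · rw [h1 x (not_lt.1 hx)]
      simp
  have hval : SchwartzMap.convolution (ContinuousLinearMap.mul ℂ ℂ) (𝓕⁻ s1) (𝓕⁻ s2) y =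
      (𝓕⁻ s2) y := by rw [hconv]
  rw [SchwartzMap.convolution_apply, hF2] at hval
  have hcv : ((𝓕⁻ s1 : 𝓢(ℝ, ℂ)) ⋆[ContinuousLinearMap.mul ℂ ℂ] (𝓕⁻ s2 : 𝓢(ℝ, ℂ))) y =
      ((∫ t, ct K1 t * st k (y - t) : ℝ) : ℂ) * Complex.I := by
    unfold convolution
    have e5 : ((∫ t, ct K1 t * st k (y - t) : ℝ) : ℂ) =
      ∫ t, ((ct K1 t * st k (y - t) : ℝ) : ℂ) := integral_ofReal.symm
    rw [e5, ← integral_mul_const]
    refine integral_congr_ae (Eventually.of_forall fun t => ?_)
    show (𝓕⁻ s1) t * (𝓕⁻ s2) (y - t) = _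
    rw [hF1, hF2]
    push_cast
    ring
  rw [hcv] at hval
  have := mul_right_cancel₀ Complex.I_ne_zero hval
  exact_mod_cast this.symm

/-- the sine transform of the derivative -/
lemma st_deriv {κ : ℝ} {K : ℝ → ℝ} (hK : TK κ K) (w : ℝ) :
    st (deriv K) w = -(2 * π * (w * ct K w)) := by
  have hs1 := TK.deriv_smooth hK.smooth
  have hc1 : HasCompactSupport (deriv K) := hK.hcs.deriv
  have hd1 : Differentiable ℝ K := hK.smooth.differentiable (by simp)
  have i2 : ∀ f : ℝ → ℝ, Continuous f → Integrable (fun α => deriv K α * f α) := fun f hf =>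
    (hs1.continuous.mul hf).integrable_of_hasCompactSupport hc1.mul_right
  have e1 : ∫ α, K α * ((2 * π * w) * Real.cos ((2 * π * w) * α)) =
      -∫ α, deriv K α * Real.sin ((2 * π * w) * α) := by
    refine integral_mul_deriv_eq_deriv_mul_of_integrable (u := K)
      (v := fun α => Real.sin ((2 * π * w) * α)) (fun α _ => (hd1 α).hasDerivAt)
      (fun α _ => ?_) (hK.mul_int (by fun_prop)) (i2 _ (by fun_prop))
      (hK.mul_int (by fun_prop))
    have := ((hasDerivAt_id α).const_mul (2 * π * w)).sin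
    simp only [id, mul_one] at this
    rw [mul_comm (2 * π * w)]
    exact this
  have e2 : ∫ α, K α * ((2 * π * w) * Real.cos ((2 * π * w) * α)) =
      (2 * π * w) * ct K w := by
    unfold ct
    rw [← integral_const_mul]
    refine integral_congr_ae (Eventually.of_forall fun α => ?_)
    show K α * ((2 * π * w) * Real.cos ((2 * π * w) * α)) =
      (2 * π * w) * (K α * Real.cos (2 * π * w * α))
    ring
  unfold st
  linarith

/-- the reproducing formula for `x` times a transform -/
lemma repro {κ κ' : ℝ} {K K1 : ℝ → ℝ} (hK : TK κ K) (hK1 : TK κ' K1)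
    (h1 : ∀ x, |x| ≤ κ → K1 x = 1) (y : ℝ) :
    y * ct K y = ∫ t, ct K1 t * ((y - t) * ct K (y - t)) := by
  have hodd : ∀ x, deriv K (-x) = -deriv K x := by
    intro x
    have h1 : (fun x => K (-x)) = K := funext hK.even
    have h3 := deriv_comp_neg K x
    rw [h1] at h3
    rw [h3, neg_neg]
  have h := repro' (TK.deriv_smooth hK.smooth) hK.hcs.deriv hodd (TK.deriv_supp hK.supp) hK1 h1 y
  rw [st_deriv hK] at h
  have e : ∫ t, ct K1 t * st (deriv K) (y - t) =
      -(2 * π) * ∫ t, ct K1 t * ((y - t) * ct K (y - t)) := by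
    rw [← integral_const_mul]
    refine integral_congr_ae (Eventually.of_forall fun t => ?_)
    show ct K1 t * st (deriv K) (y - t) = -(2 * π) * (ct K1 t * ((y - t) * ct K (y - t)))
    rw [st_deriv hK]
    ring
  rw [e] at h
  have hpi := Real.pi_pos
  have h2 : (2 * π) * (y * ct K y) = (2 * π) * ∫ t, ct K1 t * ((y - t) * ct K (y - t)) := by
    linarith
  exact mul_left_cancel₀ (by positivity) h2

/-- the reproducing formula for `sin (2 π a x)` times a transform -/
lemma repro_sin {κ κ' a : ℝ} {K K1 : ℝ → ℝ} (hK : TK κ K) (hK1 : TK κ' K1)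
    (h1 : ∀ x, |x| ≤ κ + |a| → K1 x = 1) (y : ℝ) :
    Real.sin (2 * π * a * y) * ct K y =
      ∫ t, ct K1 t * (Real.sin (2 * π * a * (y - t)) * ct K (y - t)) := by
  set k : ℝ → ℝ := fun α => (K (α - a) - K (α + a)) / 2 with hk
  have hks : ContDiff ℝ ∞ k := by
    have := hK.smooth
    fun_prop
  have hodd : ∀ x, k (-x) = -k x := by
    intro x
    simp only [hk]
    have h1 : K (-x - a) = K (x + a) := by rw [← hK.even]; ring_nf
    have h2 : K (-x + a) = K (x - a) := by rw [← hK.even]; ring_nf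
    rw [h1, h2]
    ring
  have hsupp : ∀ x, κ + |a| < |x| → k x = 0 := by
    intro x hx
    have h1 : κ < |x - a| := by
      have := abs_sub_abs_le_abs_sub x a
      linarith
    have h2 : κ < |x + a| := by
      have := abs_sub_abs_le_abs_sub x (-a)
      rw [abs_neg, sub_neg_eq_add] at this
      linarith
    simp only [hk]
    rw [hK.supp _ h1, hK.supp _ h2]
    simp
  have hc : HasCompactSupport k := by
    refine HasCompactSupport.intro (isCompact_Icc (a := -(κ + |a|)) (b := κ + |a|))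
      fun x hx => hsupp x ?_
    by_contra hc
    exact hx (abs_le.1 (not_lt.1 hc))
  have hst : ∀ w, st k w = Real.sin (2 * π * a * w) * ct K w := by
    intro w
    have i0 : ∀ f : ℝ → ℝ, Continuous f → Integrable fun α => K α * f α := fun f hf =>
      hK.mul_int hf
    have i1 := (i0 (fun v => Real.sin (2 * π * w * (v + a))) (by fun_prop)).comp_sub_right a
    have i2 := (i0 (fun v => Real.sin (2 * π * w * (v - a))) (by fun_prop)).comp_add_right a
    have t1 := integral_sub_right_eq_self (μ := (volume : Measure ℝ))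
      (fun v => K v * Real.sin (2 * π * w * (v + a))) a
    have t2 := integral_add_right_eq_self (μ := (volume : Measure ℝ))
      (fun v => K v * Real.sin (2 * π * w * (v - a))) a
    have e1 : st k w = ((∫ v, K (v - a) * Real.sin (2 * π * w * (v - a + a))) -
        ∫ v, K (v + a) * Real.sin (2 * π * w * (v + a - a))) / 2 := by
      rw [← integral_sub i1 i2, ← integral_div]
      refine integral_congr_ae (Eventually.of_forall fun v => ?_)
      show (K (v - a) - K (v + a)) / 2 * Real.sin (2 * π * w * v) =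
        (K (v - a) * Real.sin (2 * π * w * (v - a + a)) -
          K (v + a) * Real.sin (2 * π * w * (v + a - a))) / 2
      rw [sub_add_cancel, add_sub_cancel_right]
      ring
    rw [e1, t1, t2, ← integral_sub (i0 _ (by fun_prop)) (i0 _ (by fun_prop)), ← integral_div]
    unfold ct
    rw [← integral_const_mul]
    refine integral_congr_ae (Eventually.of_forall fun v => ?_)
    show (K v * Real.sin (2 * π * w * (v + a)) - K v * Real.sin (2 * π * w * (v - a))) / 2 =
      Real.sin (2 * π * a * w) * (K v * Real.cos (2 * π * w * v))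
    have e2 : 2 * π * w * (v + a) = 2 * π * w * v + 2 * π * a * w := by ring
    have e3 : 2 * π * w * (v - a) = 2 * π * w * v - 2 * π * a * w := by ring
    rw [e2, e3, Real.sin_add, Real.sin_sub]
    ring
  have h := repro' hks hc hodd hsupp hK1 h1 y
  simp_rw [hst] at h
  exact h

end Pool.Agent.H424.TW
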